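import Pool.Agent.H.MP_094aee_lc.A

namespace Pool.Agent.H.MP_44948e_lc

open Function Set Sum MeasureTheory MP_094aee_lc

lemma inv {X W Z : Type} [MeasurableSpace X] [StandardBorelSpace X] [MeasurableSpace W]
    [StandardBorelSpace W] [MeasurableSpace Z] [MeasurableSpace.CountablySeparated Z]
    {G : Set (X × W)} (hG : MeasurableSet G) {F : X × W → Z} (hF : Measurable F)
    (i : InjOn F G) : MeasurableSet (F '' G) ∧ ∃ g : F '' G → X, Measurable g ∧
      ∀ u, ∃ w, (g u, w) ∈ G ∧ F (g u, w) = u.1 := by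
  choose s s1 s2 using fun u : F '' G => u.2
  refine ⟨hG.image_of_measurable_injOn hF i, fun u => (s u).1, fun A hA => ?_,
    fun u => ⟨_, s1 u, s2 u⟩⟩
  refine Eq.subst (motive := MeasurableSet) (Set.ext fun u => ?_) (measurable_subtype_coe
    ((hG.inter (measurable_fst hA)).image_of_measurable_injOn hF (i.mono inter_subset_left)))
  exact ⟨fun ⟨p, a, b⟩ => show (s u).1 ∈ A from i a.1 (s1 u) (b.trans (s2 u).symm) ▸ a.2,
    fun h => ⟨_, ⟨s1 u, h⟩, s2 u⟩⟩

abbrev Q : Type := Option (Node × I)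

abbrev K : Type := ℕ × I ⊕ Bool

def rq : K → Q → Q → Prop
  | inl x, a, _ => ∃ p, a = some (p, x.2) ∧ p.1 = x.1
  | inr true, a, b => ∃ p i j, a = some (p, i) ∧ b = some (p, j)
  | inr false, a, b => ∃ p q i j, a = some (p, i) ∧ b = some (q, j) ∧ Cd p q

lemma tr {q q' : ℕ → Q} (hq : Surjective q) (h : ∀ k a b, rq k (q' a) (q' b) ↔ rq k (q a) (q b)) :
    ∃ ψ : Node → Node, (∀ p, (ψ p).1 = p.1) ∧ (∀ p r, Cd p r → Cd (ψ p) (ψ r)) ∧
      ∀ a, q' a = (q a).map (Prod.map ψ id) := by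
  choose s hs using hq
  choose ψ h1 h2 using fun p : Node =>
    (h (inl (p.1, inl 0)) (s (some (p, inl 0))) 0).2 ⟨p, hs _, rfl⟩
  have h3 : ∀ a p i, q a = some (p, i) → q' a = some (ψ p, i) := fun a p i e => by
    obtain ⟨r, r1, -⟩ := (h (inl (p.1, i)) a 0).2 ⟨p, e, rfl⟩
    obtain ⟨t, _, _, t1, t2⟩ := (h (inr true) a _).2 ⟨p, i, _, e, hs (some (p, inl 0))⟩
    simp_all
  refine ⟨ψ, h2, fun p r c => ?_, fun a => ?_⟩
  · obtain ⟨_, _, _, _, t1, t2, t3⟩ := (h (inr false) _ _).2 ⟨p, r, _, _, hs _, hs _, c⟩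
    rw [h3 _ p (inl 0) (hs _)] at t1
    rw [h3 _ r (inl 0) (hs _)] at t2
    simp_all
  · rcases e : q a with _ | ⟨p, i⟩
    · rcases e' : q' a with _ | ⟨p, i⟩
      · rfl
      · simpa [rq, e, e'] using h (inr true) a a
    · exact h3 a p i e

variable {X : Type} [MeasurableSpace X] {R : X → X → Prop} (S : Sys X R)

def inf (x : X) (o : Q) : Prop := o.elim True fun z => S.b x z.1 z.2

def Good (x : X) (q : ℕ → Q) : Prop := Surjective q ∧ ∀ o, (inf S x o → ∀ n, ∃ a, n < a ∧ q a = o) ∧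
  (¬ inf S x o → ∀ a b, q a = o → q b = o → a = b)

variable {S} {x y : X} {q q' : ℕ → Q}

lemma Good.fin (g : Good S x q) (o : Q) : inf S x o ↔ {a | q a = o}.Infinite :=
  ⟨fun h => infinite_of_forall_exists_gt fun n => ((g.2 o).1 h n).imp fun _ h => ⟨h.2, h.1⟩,
    fun h => by
      by_contra z
      exact h (Set.Subsingleton.finite fun a ha b hb => (g.2 o).2 z a b ha hb)⟩

lemma Good.tr (g : Good S x q) (g' : Good S y q') {h : ℕ → ℕ} (hh : Surjective h)
    (H : ∀ k a b, rq k (q' a) (q' b) ↔ rq k (q (h a)) (q (h b))) :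
    ∃ ψ : Node → Node, (∀ p, (ψ p).1 = p.1) ∧ (∀ p r, Cd p r → Cd (ψ p) (ψ r)) ∧
      (∀ a, q' a = (q (h a)).map (Prod.map ψ id)) ∧ ∀ p i, S.b x p i → S.b y (ψ p) i := by
  obtain ⟨ψ, h1, h2, h3⟩ := MP_44948e_lc.tr (g.1.comp hh) H
  refine ⟨ψ, h1, h2, h3, fun p i b => (g'.fin (some (ψ p, i))).2
    ((((g.fin (some (p, i))).1 b).preimage (hh.range_eq ▸ subset_univ _)).mono fun a ha => ?_)⟩
  exact (h3 a).trans (congrArg _ ha)

lemma epi (g : Good S x q) (g' : Good S y q') : (∃ h : ℕ → ℕ, Surjective h ∧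
    ∀ k a b, rq k (q' a) (q' b) ↔ rq k (q (h a)) (q (h b))) ↔ R x y := by
  classical
  refine ⟨fun ⟨h, hh, H⟩ => (g.tr g' hh H).elim fun ψ a => S.down x y ψ a.1 a.2.1 a.2.2.2,
    fun r => ?_⟩
  obtain ⟨ψ, h1, h2, h3⟩ := S.up x y r
  let φ : Q ≃ Q := (ψ.prodCongr (.refl I)).optionCongr
  have : ∀ o, ∃ e : ℕ → ℕ, (∀ a, q (e a) = o) ∧ ∀ c, q c = o → ∃ a, q' a = φ o ∧ e a = c :=
    fun o => by
      obtain ⟨c0, h0⟩ := g.1 o
      by_cases z : inf S y (φ o)
      · let e := ((g'.fin _).1 z).natEmbedding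
        have i : Injective fun n => (e n).1 := Subtype.val_injective.comp e.injective
        refine ⟨fun a => if q (invFun (fun n => (e n).1) a) = o then invFun (fun n => (e n).1) a
          else c0, fun a => by grind, fun c hc => ⟨e c, (e c).2, ?_⟩⟩
        simp only [leftInverse_invFun i c, if_pos hc]
      · obtain ⟨a, ha⟩ := g'.1 (φ o)
        exact ⟨fun _ => c0, fun _ => h0, fun c hc => ⟨a, ha, (g.2 o).2 (fun w => z (by
          cases o; exacts [trivial, h3 _ _ w])) _ _ h0 hc⟩⟩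
  choose e e1 e2 using this
  refine ⟨fun a => e (φ.symm (q' a)) a, fun c => (e2 _ c rfl).imp fun a ha => by simp [ha],
    fun k a b => ?_⟩
  rw [e1, e1]
  obtain ⟨u, hu⟩ := φ.surjective (q' a)
  obtain ⟨v, hv⟩ := φ.surjective (q' b)
  rw [← hu, ← hv, φ.symm_apply_apply, φ.symm_apply_apply]
  rcases u with _ | ⟨u, i⟩ <;> rcases v with _ | ⟨v, j⟩ <;> rcases k with k | _ | _ <;>
    simp [rq, φ, h1, h2, and_assoc]

lemma uniq (g : Good S x q) (g' : Good S y q')
    (H : ∀ k a b, rq k (q' a) (q' b) ↔ rq k (q a) (q b)) : x = y ∧ q = q' := by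
  obtain ⟨ψ, h1, -, h3, h4⟩ := g.tr g' surjective_id H
  obtain ⟨φ, -, -, k3, k4⟩ := g'.tr g surjective_id fun k a b => (H k a b).symm
  have a : ∀ p, φ (ψ p) = p := fun p => by
    obtain ⟨a, ha⟩ := g.1 (some (p, inl 0))
    have := k3 a
    rw [id, h3, id, ha] at this
    simpa using this.symm
  have b : ∀ p i, S.b x p i ↔ S.b y (ψ p) i := fun p i => ⟨h4 p i, fun z => a p ▸ k4 _ _ z⟩
  obtain rfl : id = ψ := funext fun p => S.rig x y _ _ (h1 p).symm (b p)
  exact ⟨S.inj x y b, funext fun a => by simp [h3]⟩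

noncomputable def eQ : ℕ ≃ Q := Classical.choice nonempty_equiv_of_countable

open Classical in
noncomputable def pb (c : ℕ → ℕ) : (Σ _ : K, Fin 2 → ℕ) → Bool :=
  fun p => decide (rq p.1 (eQ (c (p.2 0))) (eQ (c (p.2 1))))

lemma pb_iff (c d : ℕ → ℕ) : (∀ p, pb c p = pb d p) ↔
    ∀ k a b, rq k (eQ (c a)) (eQ (c b)) ↔ rq k (eQ (d a)) (eQ (d b)) :=
  ⟨fun h k a b => by simpa [pb] using h ⟨k, ![a, b]⟩, fun h p => by simp [pb, h]⟩

lemma mc (a b : ℕ) : Measurable fun c : ℕ → ℕ => c a = b :=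
  measurableSet_setOf.1 (measurableSet_eq_fun (by fun_prop) measurable_const)

lemma pb_meas : Measurable pb := measurable_pi_lambda _ fun p => measurable_to_bool (by
  simp only [pb, preimage, mem_singleton_iff, decide_eq_true_eq]
  exact measurableSet_setOf.2 (mev (b := fun c a => rq p.1 (eQ a) (eQ (c (p.2 1))))
    (fun a => mev (b := fun _ b => rq p.1 (eQ a) (eQ b)) (fun _ => measurable_const) (mc _))
    (mc _)))

lemma minf (o : Q) : Measurable (inf S · o) := by
  cases o; exacts [measurable_const, S.meas _ _]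

lemma good_meas : MeasurableSet {p : X × (ℕ → ℕ) | Good S p.1 (eQ ∘ p.2)} := by
  have m : ∀ a o, Measurable fun p : X × (ℕ → ℕ) => eQ (p.2 a) = o := fun a o => by
    simp only [Equiv.apply_eq_iff_eq_symm_apply]
    exact (mc a _).comp measurable_snd
  have : ∀ o, Measurable fun p : X × (ℕ → ℕ) => inf S p.1 o := fun o =>
    (minf o).comp measurable_fst
  exact measurableSet_setOf.2 ((Measurable.forall fun o => .exists fun a => m a o).and
    (.forall fun o => ((this o).imp (.forall fun n => .exists fun a =>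
      measurable_const.and (m a o))).and ((this o).not.imp (.forall fun a => .forall fun b =>
        (m a o).imp ((m b o).imp measurable_const)))))

open Classical in
noncomputable def can (S : Sys X R) (x : X) (a : ℕ) : ℕ :=
  if a.unpair.2 = 0 ∨ inf S x (eQ a.unpair.1) then a.unpair.1 else eQ.symm none

lemma can_meas : Measurable (can S) := measurable_pi_lambda _ fun _ =>
  .ite (measurableSet_setOf.2 (measurable_const.or (minf _))) measurable_const measurable_const

lemma can_good (x : X) : Good S x (eQ ∘ can S x) := by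
  refine ⟨fun o => ⟨(eQ.symm o).pair 0, by simp [can]⟩, fun o => ⟨fun h n =>
    ⟨(eQ.symm o).pair (n + 1), Nat.right_le_pair _ _, by simp [can, h]⟩, fun h a b ha hb => ?_⟩⟩
  have : ∀ a, eQ (can S x a) = o → a = (eQ.symm o).pair 0 := fun a ha => by
    unfold can at ha
    split_ifs at ha with z
    · rw [← ha, eQ.symm_apply_apply, ← z.resolve_right (ha ▸ h), Nat.pair_unpair]
    · exact (h (by rw [← ha, eQ.apply_symm_apply]; trivial)).elim
  rw [this a ha, this b hb]

end Pool.Agent.H.MP_44948e_lc
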